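import Pool.Agent.Q57.OP.Defs
import Pool.Agent.Q57.ZI.GalFin
import Pool.Agent.H914R2.GConv

/-!
# The restriction of the action of the Galois group to a subgroup
-/

open CategoryTheory AlgebraicGeometry

universe u v w

namespace Pool.Agent.Q57.OP

open Module
open Pool.Agent.H914 Pool.Agent.H914.VarClass Pool.Agent.H914.VarClass.Obj
  Pool.Agent.H914.WeilCohomology
open Pool.Agent.Q55 (GaloisAction SubAction Virtually IsTate tatePred push_act)
open Pool.Agent.Q57.ZI

variable {k : Type u} [Field k] {𝒱 : VarClass k} {ops : CycleOps 𝒱}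
  {W : WeilCohomology.{u, v} ops} {Γ : Type w} [Group Γ] (G : GaloisAction W Γ)
  (D : Subgroup Γ) {X Y : 𝒱.Obj}

lemma virt_res {p : Γ → Prop} (h : Virtually p) : Virtually fun g : D => p g := by
  obtain ⟨Δ, hΔ, h⟩ := h
  exact ⟨Δ.subgroupOf D, inferInstance, fun g hg => h g hg⟩

/-- The restriction of the action to a subgroup. -/
def res : GaloisAction W D where
  χ := G.χ.comp D.subtype
  ρ X :=
    { dom := (G.ρ X).dom.subgroupOf D
      act := fun g => (G.ρ X).act g
      act_mul := fun g hg h hh => (G.ρ X).act_mul g hg h hh }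
  isGalois X :=
    { finiteIndex := by
        have := (G.isGalois X).finiteIndex
        infer_instance
      gr_mem := fun g hg => (G.isGalois X).gr_mem g hg
      tr_act := fun g hg => (G.isGalois X).tr_act g hg }
  map_act f := virt_res D (G.map_act f)
  cl_act X j z hz := virt_res D (G.cl_act X j z hz)

lemma isTateOn_iff {j : ℕ} {c : W.H X} : IsTateOn G D X j c ↔ IsTate (res G D) X j c := by
  refine and_congr_right fun _ => ?_
  constructor
  · rintro ⟨Δ, hΔ, hi, h⟩
    exact ⟨Δ.subgroupOf D, ⟨hi⟩, fun g hg => h g hg⟩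
  · rintro ⟨Δ, hΔ, h⟩
    refine ⟨Δ.map D.subtype, ?_, ?_, ?_⟩
    · rintro _ ⟨g, -, rfl⟩
      exact g.2
    · rw [Subgroup.relIndex, Subgroup.subgroupOf,
        Subgroup.comap_map_eq_self_of_injective D.subtype_injective]
      exact hΔ.index_ne_zero
    · rintro _ ⟨g, hg, rfl⟩ hd
      exact h g hg hd

lemma isTateOn_fun : IsTateOn G D = IsTate (res G D) := by
  funext X j c
  exact propext (isTateOn_iff G D)

lemma tateOn_of_tate {j : ℕ} {c : W.H X} (h : IsTate G X j c) : IsTate (res G D) X j c :=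
  ⟨h.1, virt_res D h.2⟩

/-! ### Operators -/

/-- The components of a correspondence. -/
lemma proj_corr (z : W.H (X.prod X)) {l : ℕ} {a : W.H X} (ha : a ∈ W.gr X l) :
    H914.proj (W.isInternal X) l (W.corr z a) =
      W.corr (H914.proj (W.isInternal (X.prod X)) (2 * X.dim) z) a := by
  refine gr_induction (W.isInternal (X.prod X)) (p := fun z =>
    H914.proj (W.isInternal X) l (W.corr z a) =
      W.corr (H914.proj (W.isInternal (X.prod X)) (2 * X.dim) z) a) ?_ ?_ z
  · intro m z hz
    have h1 := W.push_mem (snd X X) (W.mul_mem hz (W.map_mem (fst X X) ha))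
    have h2 : W.corr z a = W.push (snd X X) (z * W.map (fst X X) a) := corr_apply _ _ _
    by_cases hm : m = 2 * X.dim
    · have h3 : ((m + l : ℕ) : ℤ) + 2 * ((X.dim : ℤ) - (X.prod X).dim) = (l : ℤ) := by
        rw [dim_prod, hm]; push_cast; ring
      rw [h3, grZ_natCast, ← h2] at h1
      rw [proj_same _ h1]
      rw [← hm, proj_same _ hz]
    · rw [proj_ne _ hz hm, corr_zero, LinearMap.zero_apply]
      by_cases hneg : 2 * X.dim ≤ m + l
      · have h3 : ((m + l : ℕ) : ℤ) + 2 * ((X.dim : ℤ) - (X.prod X).dim) =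
            ((m + l - 2 * X.dim : ℕ) : ℤ) := by
          rw [dim_prod]; push_cast; omega
        rw [h3, grZ_natCast, ← h2] at h1
        rw [proj_ne _ h1 (by omega)]
      · rw [grZ_of_neg (by rw [dim_prod]; push_cast; omega), ← h2, Submodule.mem_bot] at h1
        rw [h1, map_zero]
  · intro z z' hz hz'
    rw [corr_add, LinearMap.add_apply, map_add, hz, hz', map_add, corr_add, LinearMap.add_apply]

/-- A class the operator of which respects the degrees. -/
lemma corr_gr {z : W.H (X.prod X)} (h : ∀ i, ∀ a ∈ W.gr X i, W.corr z a ∈ W.gr X i) :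
    z ∈ W.gr (X.prod X) (2 * X.dim) := by
  have h1 : W.corr z = W.corr (H914.proj (W.isInternal (X.prod X)) (2 * X.dim) z) := by
    apply gr_ext (W.isInternal X)
    intro l a ha
    rw [← proj_corr z ha, proj_same _ (h l a ha)]
  have h2 : z - H914.proj (W.isInternal (X.prod X)) (2 * X.dim) z = 0 := by
    apply corr_inj
    rw [sub_eq_add_neg, corr_add, h1, ← corr_add, ← sub_eq_add_neg, sub_self, corr_zero]
  rw [sub_eq_zero.1 h2]
  exact proj_mem _ _ _

/-- Conjugates of operators. -/
lemma act_corr : Virtually fun g => g ∈ (G.ρ X).dom ∧ g ∈ (G.ρ (X.prod X)).dom ∧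
    ∀ (z : W.H (X.prod X)) (a : W.H X), (G.χ g : W.K) ^ X.dim • (G.ρ X).act g (W.corr z a) =
      W.corr ((G.ρ (X.prod X)).act g z) ((G.ρ X).act g a) := by
  obtain ⟨Δ, hΔ, h⟩ := push_act G (snd X X)
  refine Virtually.mono (Virtually.and (Virtually.and ⟨Δ, hΔ, h⟩ (G.map_act (fst X X)))
    (Virtually.and (virt_dom G X) (virt_dom G (X.prod X)))) ?_
  rintro g ⟨⟨h1, h2⟩, hX, hd⟩
  refine ⟨hX, hd, fun z a => ?_⟩
  have h3 := h1 hd hX (z * W.map (fst X X) a)
  have h4 : (G.ρ (X.prod X)).act g (z * W.map (fst X X) a) =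
      (G.ρ (X.prod X)).act g z * W.map (fst X X) ((G.ρ X).act g a) := by
    rw [map_mul, h2 hd hX]
  rw [h4, dim_prod, pow_add, mul_comm, mul_smul] at h3
  exact smul_right_injective (W.H X) (pow_ne_zero X.dim (G.χ g).ne_zero) h3

/-- An operator which commutes with a subgroup of finite index is given by a Tate class. -/
lemma tate_of_comm {z : W.H (X.prod X)} (hz : z ∈ W.gr (X.prod X) (2 * X.dim))
    (h : Virtually fun g => g ∈ (G.ρ X).dom → ∀ a, W.corr z ((G.ρ X).act g a) =
      (G.ρ X).act g (W.corr z a)) : IsTate G (X.prod X) X.dim z := by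
  refine ⟨hz, Virtually.mono (Virtually.and h (act_corr G (X := X))) ?_⟩
  rintro g ⟨h1, hX, hd, h2⟩ -
  have h3 : (G.ρ (X.prod X)).act g z - (G.χ g : W.K) ^ X.dim • z = 0 := by
    apply corr_inj
    apply LinearMap.ext
    intro b
    obtain ⟨a, rfl⟩ := ((G.ρ X).act g).surjective b
    rw [sub_eq_add_neg, corr_add, LinearMap.add_apply, ← h2, ← h1 hX, ← neg_smul, corr_smul,
      LinearMap.smul_apply, neg_smul, add_neg_cancel, LinearMap.zero_apply]
  exact sub_eq_zero.1 h3

/-- All operators given by Tate classes commute with one subgroup of finite index. -/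
lemma exists_uniform : Virtually fun g => g ∈ (G.ρ X).dom ∧
    ∀ z, IsTate G (X.prod X) X.dim z → ∀ a,
      W.corr z ((G.ρ X).act g a) = (G.ρ X).act g (W.corr z a) := by
  classical
  let S : Submodule W.K (W.H (X.prod X)) :=
    { carrier := {z | IsTate G (X.prod X) X.dim z}
      add_mem' := fun ha hb => (tatePred G).add ha hb
      zero_mem' := (tatePred G).zero
      smul_mem' := fun r _ ha => (tatePred G).smul r ha }
  let b := Module.finBasis W.K S
  have h1 : Virtually fun g => ∀ i, (G.ρ (X.prod X)).Twists G.χ X.dim (b i : W.H (X.prod X)) g :=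
    Virtually.all fun i => (b i).2.2
  refine Virtually.mono (Virtually.and h1 (act_corr G (X := X))) ?_
  rintro g ⟨h1, hX, hd, h2⟩
  refine ⟨hX, fun z hz a => ?_⟩
  have h3 : (G.ρ (X.prod X)).act g z = (G.χ g : W.K) ^ X.dim • z := by
    have h4 : z = ∑ i, b.repr ⟨z, hz⟩ i • (b i : W.H (X.prod X)) := by
      have h5 := congrArg Subtype.val (b.sum_repr (⟨z, hz⟩ : S))
      rw [Submodule.coe_sum] at h5
      exact h5.symm
    rw [h4, map_sum, Finset.smul_sum]
    refine Finset.sum_congr rfl fun i _ => ?_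
    rw [map_smul, h1 i hd, smul_comm]
  have h4 := h2 z a
  rw [h3, corr_smul, LinearMap.smul_apply] at h4
  exact (smul_right_injective (W.H X) (pow_ne_zero X.dim (G.χ g).ne_zero) h4).symm

/-- **A criterion for the action of the Galois group to be virtually commutative.** -/
theorem virtually_comm (hD : CommutativeOn (G.ρ X) D)
    (h : ∀ z, IsTate (res G D) (X.prod X) X.dim z → IsTate G (X.prod X) X.dim z) :
    VirtuallyCommutative (G.ρ X) := by
  obtain ⟨Δ, hΔ, hu⟩ := exists_uniform G (X := X)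
  -- operators which commute with `D` commute with `Δ`
  have key : ∀ u : W.H X →ₗ[W.K] W.H X, (∀ i, ∀ a ∈ W.gr X i, u a ∈ W.gr X i) →
      (∀ d ∈ D, d ∈ (G.ρ X).dom → ∀ a, u ((G.ρ X).act d a) = (G.ρ X).act d (u a)) →
      ∀ g ∈ Δ, ∀ a, u ((G.ρ X).act g a) = (G.ρ X).act g (u a) := by
    intro u hu1 hu2 g hg a
    obtain ⟨z, rfl⟩ : ∃ z, W.corr z = u := corr_bijective.2 u
    refine (hu g hg).2 z (h z (tate_of_comm (res G D) (corr_gr hu1) ?_)) a
    exact ⟨⊤, inferInstance, fun d _ hd a => hu2 d d.2 hd a⟩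
  refine ⟨Δ, hΔ, fun g hg => (hu g hg).1, ?_⟩
  -- the elements of `D` commute with `Δ`
  have h1 : ∀ d ∈ D, d ∈ (G.ρ X).dom → ∀ g ∈ Δ, ∀ a,
      (G.ρ X).act d ((G.ρ X).act g a) = (G.ρ X).act g ((G.ρ X).act d a) := by
    intro d hd hdX
    refine key ((G.ρ X).act d).toLinearMap (fun i a ha => (G.isGalois X).gr_mem d hdX i a ha) ?_
    intro d' hd' hdX' a
    exact hD d hd d' hd' hdX hdX' a
  intro g hg g' hg' hX hX' a
  refine key ((G.ρ X).act g).toLinearMap (fun i a ha => (G.isGalois X).gr_mem g hX i a ha) ?_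
    g' hg' a
  intro d hd hdX a
  exact (h1 d hd hdX g hg a).symm

end Pool.Agent.Q57.OP
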