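import Pool.Agent.Q57.OP.Res
import Pool.Agent.Q57.SP.Alg

/-!
# Subgroups of the Galois group of a finitely generated field
-/

open CategoryTheory AlgebraicGeometry

universe u v w

namespace Pool.Agent.Q57.OP

open Module
open Pool.Agent.H914 Pool.Agent.H914.VarClass Pool.Agent.H914.VarClass.Obj
  Pool.Agent.H914.WeilCohomology
open Pool.Agent.Q55 (GaloisAction SubAction Virtually IsTate tatePred)
open Pool.Agent.Y133.Half
open Pool.Agent.Q57.ZI
open Pool.Agent.Q57.SP

variable {k : Type u} [Field k] {𝒱 : VarClass k} {ops : CycleOps 𝒱}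
  {W : WeilCohomology.{u, v} ops} {Γ : Type w} [Group Γ]

theorem any_law (G : GaloisAction W Γ) (D : Subgroup Γ) (X : 𝒱.Obj) [Nontrivial (W.H X)] :
    ∃ N : ℕ∞, 1 ≤ N ∧
    HasIndex (fun n => dimBy W (IsTateOn G D) (pw X n)) (fun n => cycRank ops (pw X n)) N ∧
    (N = 1 ↔ ∀ n, (∀ j c, IsTateOn G D (pw X n) j c → c ∈ spanCycles W (pw X n) j) ∧
      HomEqNum W (pw X n)) ∧
    (N ≠ ⊤ → (∀ n, HomEqNum W (pw X n)) ∧
      (∀ n j c, IsTateOn G D (pw X n) j c → IsTate G (pw X n) j c) ∧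
      GeneratedOver W (fun Z j c => c ∈ spanCycles W Z j) (IsTateOn G D) X N ∧
      (CommutativeOn (G.ρ X) D → VirtuallyCommutative (G.ρ X))) := by
  obtain ⟨N, h1, h2, h3, h4⟩ := full_index (tatePred (res G D)) X
  have hP : (algPred W).P = fun (Z : 𝒱.Obj) (j : ℕ) (c : W.H Z) => c ∈ spanCycles W Z j := by
    funext Z j c
    exact propext algPred_iff
  have hR : (tatePred (res G D)).P = IsTateOn G D := (isTateOn_fun G D).symm
  have e1 : N ≠ ⊤ → ∀ n j c, (tatePred (res G D)).P (pw X n) j c → IsTate G (pw X n) j c := by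
    intro hN n j c hc
    refine tate_of_generated G (Q := algPred W) (R := tatePred (res G D)) ?_ (h4 hN).2 hc
    intro Z j z hz
    exact ClassPred.of_sp (Q := tatePred G) (ClassPred.alg_le (Q := tatePred G) hz.2) hz.1
  rw [← hP, ← hR]
  refine ⟨N, h1, h2, h3, fun hN => ⟨(h4 hN).1, e1 hN, (h4 hN).2, fun hD => ?_⟩⟩
  exact virtually_comm G D hD fun z hz => e1 hN 1 X.dim z hz

end Pool.Agent.Q57.OP
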