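import Pool.Agent.Q55.GaloisDefs
import Pool.Agent.Q57.DS.Defs

/-!
# The restriction of the action of the Galois group to a subgroup: definitions
-/

open CategoryTheory AlgebraicGeometry

universe u v w

namespace Pool.Agent.Q57.OP

open Pool.Agent.H914 Pool.Agent.H914.VarClass Pool.Agent.H914.VarClass.Obj
open Pool.Agent.Q55 (GaloisAction SubAction)

section Alg

variable {Γ : Type w} [Group Γ] {K : Type*} [Field K] {A : Type*} [Ring A] [Algebra K A]

/-- The element `c` lies in `V`, and all elements of a subgroup of finite index of `D` multiply `c`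
by `χ g ^ j`. -/
def FixedOn (ρ : SubAction Γ K A) (χ : Γ →* Kˣ) (j : ℕ) (V : Submodule K A) (c : A)
    (D : Subgroup Γ) : Prop :=
  c ∈ V ∧ ∃ Δ : Subgroup Γ, Δ ≤ D ∧ Δ.relIndex D ≠ 0 ∧ ∀ g ∈ Δ, ρ.Twists χ j c g

/-- The elements of the subgroup `D` which act on `A` commute with each other on `A`. -/
def CommutativeOn (ρ : SubAction Γ K A) (D : Subgroup Γ) : Prop :=
  ∀ g ∈ D, ∀ h ∈ D, g ∈ ρ.dom → h ∈ ρ.dom → ∀ a, ρ.act g (ρ.act h a) = ρ.act h (ρ.act g a)

/-- There is a subgroup of finite index the elements of which act on `A` and commute with each other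
on `A`. -/
def VirtuallyCommutative (ρ : SubAction Γ K A) : Prop :=
  ∃ Δ : Subgroup Γ, Δ.FiniteIndex ∧ Δ ≤ ρ.dom ∧ CommutativeOn ρ Δ

/-- The linear maps `a ↦ s (z · p a)` given by the elements `z` of `S`. -/
def maps {C : Type*} [Ring C] [Algebra K C] (p : A →ₐ[K] C) (s : C →ₗ[K] A) (S : Set C) :
    Set (A →ₗ[K] A) := {u | ∃ z ∈ S, corrOp p s z = u}

/-- Every linear map `u` which respects the subspaces `gr i` and commutes with all elements of `E` is
an element of `E`. -/
def ContainsCommutant (gr : ℕ → Submodule K A) (E : Set (A →ₗ[K] A)) : Prop :=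
  ∀ u : A →ₗ[K] A, (∀ i, ∀ a ∈ gr i, u a ∈ gr i) → (∀ v ∈ E, ∀ a, u (v a) = v (u a)) → u ∈ E

end Alg

section Hodge

open Pool.Agent.Y121.AHS (HodgeTheory IsHodge)

variable {k : Type u} [Field k] {𝒱 : VarClass k} {ops : CycleOps 𝒱}

/-- The Hodge structure `H(X)` is of CM type: every endomorphism of the graded vector space `H(X)`
which commutes with all endomorphisms of the Hodge structure is itself an endomorphism of the Hodge
structure (so the Mumford-Tate group of `H(X)` is commutative). The endomorphisms of the graded Hodge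
structure `H(X)` are the operators given by the Hodge classes of codimension `dim X` on `X × X`. -/
def IsCM (T : HodgeTheory ops) (X : 𝒱.Obj) : Prop :=
  ContainsCommutant (T.W.gr X)
    (maps (T.W.map (fst X X)) (T.W.push (snd X X)) {z | IsHodge T (X.prod X) X.dim z})

end Hodge

variable {k : Type u} [Field k] {𝒱 : VarClass k} {ops : CycleOps 𝒱}
  {W : WeilCohomology.{u, v} ops} {Γ : Type w} [Group Γ]

/-- The classes of codimension `j` on `X` on which a subgroup of finite index of `D` acts by the
twist. If `D` is the decomposition group of a place `v` of good reduction, these are the Tate classes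
of the reduction of `X` at `v`. -/
def IsTateOn (G : GaloisAction W Γ) (D : Subgroup Γ) (X : 𝒱.Obj) (j : ℕ) (c : W.H X) : Prop :=
  FixedOn (G.ρ X) G.χ j (W.gr X (2 * j)) c D

end Pool.Agent.Q57.OP
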